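import Pool.Agent.MP_1246c0_nt.H55.SpecC

/-! The volume of the fundamental domain for binary cubic forms. -/

namespace Pool.Agent.MP_1246c0_nt.H15

open Pool.Agent.MP_1246c0_nt.H55 MeasureTheory Real Set

/-- the derivative at `x` has the matrix `M` -/
def HD (Φ : Fm ℝ → Fm ℝ) (M : Matrix (Fin 4) (Fin 4) ℝ) (x : Fm ℝ) : Prop :=
  HasFDerivAt Φ (LinearMap.toContinuousLinearMap (Matrix.toLin' M)) x

theorem HD.comp {F G : Fm ℝ → Fm ℝ} {M N : Matrix (Fin 4) (Fin 4) ℝ} {x : Fm ℝ}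
    (h1 : HD F M (G x)) (h2 : HD G N x) : HD (F ∘ G) (M * N) x := by
  refine (HasFDerivAt.comp x h1 h2).congr_fderiv (ContinuousLinearMap.ext fun w => ?_)
  simp

theorem HD.of {Φ : Fm ℝ → Fm ℝ} {M : Matrix (Fin 4) (Fin 4) ℝ} {x : Fm ℝ}
    (h : ∀ i, ∃ L : Fm ℝ →L[ℝ] ℝ, HasFDerivAt (fun y => Φ y i) L x ∧
      ∀ w, L w = M i 0 * w 0 + M i 1 * w 1 + M i 2 * w 2 + M i 3 * w 3) : HD Φ M x := by
  refine hasFDerivAt_pi'' fun i => ?_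
  obtain ⟨L, h1, h2⟩ := h i
  refine h1.congr_fderiv (ContinuousLinearMap.ext fun w => ?_)
  rw [h2]
  simp [Matrix.mulVec, dotProduct, Fin.sum_univ_four]

noncomputable def G1 (z : Fm ℝ) : Fm ℝ := ![z 0, z 1, sin (z 2), cos (z 2) * (z 3)⁻¹]

noncomputable def G2 (z : Fm ℝ) : Fm ℝ := ![√(√(z 0) * (z 3)⁻¹), z 1, z 2, z 3]

noncomputable def G3 (z : Fm ℝ) : Fm ℝ :=
  ![z 0 * sin (z 1) * (z 3)⁻¹, z 0 * cos (z 1) - z 2 * (z 0 * sin (z 1) * (z 3)⁻¹), z 2, z 3]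

noncomputable def G4 (z : Fm ℝ) : Fm ℝ := mkF (z 0) (z 1) (z 2) (z 3)

theorem hp (i : Fin 4) (x : Fm ℝ) :
    HasFDerivAt (fun y : Fm ℝ => y i) (ContinuousLinearMap.proj i : Fm ℝ →L[ℝ] ℝ) x :=
  hasFDerivAt_apply i x

theorem hinv (x : Fm ℝ) (h : x 3 ≠ 0) : HasFDerivAt (fun y : Fm ℝ => (y 3)⁻¹)
    ((-(x 3 ^ 2)⁻¹) • (ContinuousLinearMap.proj 3 : Fm ℝ →L[ℝ] ℝ)) x :=
  (hasDerivAt_inv h).comp_hasFDerivAt x (hp 3 x)

theorem det4 (M : Matrix (Fin 4) (Fin 4) ℝ) : M.det =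
    M 0 0 * (M 1 1 * (M 2 2 * M 3 3 - M 2 3 * M 3 2) - M 1 2 * (M 2 1 * M 3 3 - M 2 3 * M 3 1) +
      M 1 3 * (M 2 1 * M 3 2 - M 2 2 * M 3 1)) -
    M 0 1 * (M 1 0 * (M 2 2 * M 3 3 - M 2 3 * M 3 2) - M 1 2 * (M 2 0 * M 3 3 - M 2 3 * M 3 0) +
      M 1 3 * (M 2 0 * M 3 2 - M 2 2 * M 3 0)) +
    M 0 2 * (M 1 0 * (M 2 1 * M 3 3 - M 2 3 * M 3 1) - M 1 1 * (M 2 0 * M 3 3 - M 2 3 * M 3 0) +
      M 1 3 * (M 2 0 * M 3 1 - M 2 1 * M 3 0)) -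
    M 0 3 * (M 1 0 * (M 2 1 * M 3 2 - M 2 2 * M 3 1) - M 1 1 * (M 2 0 * M 3 2 - M 2 2 * M 3 0) +
      M 1 2 * (M 2 0 * M 3 1 - M 2 1 * M 3 0)) := by
  rw [Matrix.det_succ_row_zero, Fin.sum_univ_four]
  simp only [Matrix.det_fin_three, Matrix.submatrix_apply]
  have a1 : (Fin.succ (0 : Fin 3) : Fin 4) = 1 := rfl
  have a2 : (Fin.succ (1 : Fin 3) : Fin 4) = 2 := rfl
  have a3 : (Fin.succ (2 : Fin 3) : Fin 4) = 3 := rfl
  have b1 : Fin.succAbove (0 : Fin 4) (0 : Fin 3) = 1 := rfl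
  have b2 : Fin.succAbove (0 : Fin 4) (1 : Fin 3) = 2 := rfl
  have b3 : Fin.succAbove (0 : Fin 4) (2 : Fin 3) = 3 := rfl
  have c1 : Fin.succAbove (1 : Fin 4) (0 : Fin 3) = 0 := rfl
  have c2 : Fin.succAbove (1 : Fin 4) (1 : Fin 3) = 2 := rfl
  have c3 : Fin.succAbove (1 : Fin 4) (2 : Fin 3) = 3 := rfl
  have d1 : Fin.succAbove (2 : Fin 4) (0 : Fin 3) = 0 := rfl
  have d2 : Fin.succAbove (2 : Fin 4) (1 : Fin 3) = 1 := rfl
  have d3 : Fin.succAbove (2 : Fin 4) (2 : Fin 3) = 3 := rfl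
  have e1 : Fin.succAbove (3 : Fin 4) (0 : Fin 3) = 0 := rfl
  have e2 : Fin.succAbove (3 : Fin 4) (1 : Fin 3) = 1 := rfl
  have e3 : Fin.succAbove (3 : Fin 4) (2 : Fin 3) = 2 := rfl
  have v0 : ((0 : Fin 4) : ℕ) = 0 := rfl
  have v1 : ((1 : Fin 4) : ℕ) = 1 := rfl
  have v2 : ((2 : Fin 4) : ℕ) = 2 := rfl
  have v3 : ((3 : Fin 4) : ℕ) = 3 := rfl
  rw [a1, a2, a3, b1, b2, b3, c1, c2, c3, d1, d2, d3, e1, e2, e3, v0, v1, v2, v3]
  ring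

theorem d1 (x : Fm ℝ) (h : x 3 ≠ 0) :
    ∃ M, HD G1 M x ∧ M.det = -(cos (x 2) * (x 3)⁻¹) ^ 2 := by
  refine ⟨!![1, 0, 0, 0; 0, 1, 0, 0; 0, 0, cos (x 2), 0;
    0, 0, -sin (x 2) * (x 3)⁻¹, -cos (x 2) * (x 3 ^ 2)⁻¹], HD.of fun i => ?_, ?_⟩
  · fin_cases i
    · exact ⟨_, hp 0 x, fun w => by simp⟩
    · exact ⟨_, hp 1 x, fun w => by simp⟩
    · exact ⟨_, (hp 2 x).sin, fun w => by simp⟩
    · exact ⟨_, (hp 2 x).cos.mul (hinv x h), fun w => by simp; ring⟩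
  · rw [det4]
    simp
    ring

theorem d2 (x : Fm ℝ) (h0 : 0 < x 0) (h : 0 < x 3) :
    ∃ M, HD G2 M x ∧ M.det = (4 * (G2 x 0) ^ 3 * x 3 ^ 2)⁻¹ := by
  have hs : 0 < √(x 0) := sqrt_pos.2 h0
  have ht : 0 < √(x 0) * (x 3)⁻¹ := by positivity
  have hr : 0 < √(√(x 0) * (x 3)⁻¹) := sqrt_pos.2 ht
  refine ⟨!![1 / (2 * √(√(x 0) * (x 3)⁻¹)) * ((x 3)⁻¹ * (1 / (2 * √(x 0)))), 0, 0,
    1 / (2 * √(√(x 0) * (x 3)⁻¹)) * (√(x 0) * (-(x 3 ^ 2)⁻¹)); 0, 1, 0, 0; 0, 0, 1, 0;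
    0, 0, 0, 1], HD.of fun i => ?_, ?_⟩
  · fin_cases i
    · exact ⟨_, (((hp 0 x).sqrt h0.ne').mul (hinv x h.ne')).sqrt ht.ne', fun w => by simp; ring⟩
    · exact ⟨_, hp 1 x, fun w => by simp⟩
    · exact ⟨_, hp 2 x, fun w => by simp⟩
    · exact ⟨_, hp 3 x, fun w => by simp⟩
  · have e0 : G2 x 0 = √(√(x 0) * (x 3)⁻¹) := rfl
    have e1 : √(√(x 0) * (x 3)⁻¹) ^ 2 = √(x 0) * (x 3)⁻¹ := sq_sqrt ht.le
    rw [det4, e0]
    generalize √(√(x 0) * (x 3)⁻¹) = r at *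
    have e2 : √(x 0) = r ^ 2 * x 3 := by rw [e1]; field_simp
    rw [e2]
    simp
    field_simp
    ring

theorem d3 (x : Fm ℝ) (h : x 3 ≠ 0) : ∃ M, HD G3 M x ∧ M.det = -(x 0 * (x 3)⁻¹) := by
  have hA := ((hp 0 x).mul (hp 1 x).sin).mul (hinv x h)
  refine ⟨!![sin (x 1) * (x 3)⁻¹, x 0 * cos (x 1) * (x 3)⁻¹, 0, -(x 0 * sin (x 1) * (x 3 ^ 2)⁻¹);
    cos (x 1) - x 2 * sin (x 1) * (x 3)⁻¹, -(x 0 * sin (x 1)) - x 2 * x 0 * cos (x 1) * (x 3)⁻¹,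
      -(x 0 * sin (x 1) * (x 3)⁻¹), x 2 * x 0 * sin (x 1) * (x 3 ^ 2)⁻¹;
    0, 0, 1, 0; 0, 0, 0, 1], HD.of fun i => ?_, ?_⟩
  · fin_cases i
    · exact ⟨_, hA, fun w => by simp; ring⟩
    · exact ⟨_, ((hp 0 x).mul (hp 1 x).cos).sub ((hp 2 x).mul hA), fun w => by simp; ring⟩
    · exact ⟨_, hp 2 x, fun w => by simp⟩
    · exact ⟨_, hp 3 x, fun w => by simp⟩
  · rw [det4]
    have := sin_sq_add_cos_sq (x 1)
    simp
    linear_combination (-(x 0 * (x 3)⁻¹)) * this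

theorem d4 (x : Fm ℝ) : ∃ M, HD G4 M x ∧
    M.det = -(4 / 9 * x 3 * ((x 0 * x 2 + x 1) ^ 2 + x 0 ^ 2 * x 3 ^ 2)) := by
  have hA := ((hp 2 x).pow 2).add ((hp 3 x).pow 2)
  refine ⟨!![1, 0, 0, 0; -2 * x 2 / 3, 1 / 3, -2 * x 0 / 3, 0;
    (x 2 ^ 2 + x 3 ^ 2) / 3, -2 * x 2 / 3, (2 * x 0 * x 2 - 2 * x 1) / 3, 2 * x 0 * x 3 / 3;
    0, x 2 ^ 2 + x 3 ^ 2, 2 * x 1 * x 2, 2 * x 1 * x 3], HD.of fun i => ?_, ?_⟩
  · fin_cases i
    · exact ⟨_, hp 0 x, fun w => by simp⟩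
    · exact ⟨_, ((hp 1 x).sub (((hp 2 x).const_mul 2).mul (hp 0 x))).mul_const (3 : ℝ)⁻¹,
        fun w => by simp; ring⟩
    · exact ⟨_, (((hp 0 x).mul hA).sub (((hp 2 x).const_mul 2).mul (hp 1 x))).mul_const (3 : ℝ)⁻¹,
        fun w => by simp; ring⟩
    · exact ⟨_, (hp 1 x).mul hA, fun w => by simp; ring⟩
  · rw [det4]
    simp
    ring

/-- the parameter box -/
def Bx : Set (Fm ℝ) :=
  Set.pi univ ![Ioc 0 (27 / 4), Icc 0 π, Icc (-(π / 6)) (π / 6), Ioc 0 1]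

theorem dall (x : Fm ℝ) (hx : x ∈ Bx) :
    ∃ M, HD (G4 ∘ G3 ∘ G2 ∘ G1) M x ∧ |M.det| = 1 / 9 := by
  have h0 : x 0 ∈ Ioc (0 : ℝ) (27 / 4) := hx 0 trivial
  have h2 : x 2 ∈ Icc (-(π / 6)) (π / 6) := hx 2 trivial
  have h3 : x 3 ∈ Ioc (0 : ℝ) 1 := hx 3 trivial
  have hc : 0 < cos (x 2) :=
    cos_pos_of_mem_Ioo ⟨by linarith [h2.1, pi_pos], by linarith [h2.2, pi_pos]⟩
  have hv : 0 < cos (x 2) * (x 3)⁻¹ := mul_pos hc (inv_pos.2 h3.1)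
  obtain ⟨M1, a1, b1⟩ := d1 x h3.1.ne'
  obtain ⟨M2, a2, b2⟩ := d2 (G1 x) h0.1 hv
  obtain ⟨M3, a3, b3⟩ := d3 (G2 (G1 x)) hv.ne'
  obtain ⟨M4, a4, b4⟩ := d4 (G3 (G2 (G1 x)))
  refine ⟨M4 * (M3 * (M2 * M1)), HD.comp a4 (HD.comp a3 (HD.comp a2 a1)), ?_⟩
  have hr : 0 < G2 (G1 x) 0 := sqrt_pos.2 (mul_pos (sqrt_pos.2 h0.1) (inv_pos.2 hv))
  have e0 : G3 (G2 (G1 x)) 0 = G2 (G1 x) 0 * sin (x 1) * (cos (x 2) * (x 3)⁻¹)⁻¹ := rfl
  have e1 : G3 (G2 (G1 x)) 1 = G2 (G1 x) 0 * cos (x 1) -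
    sin (x 2) * (G2 (G1 x) 0 * sin (x 1) * (cos (x 2) * (x 3)⁻¹)⁻¹) := rfl
  have e2 : G3 (G2 (G1 x)) 2 = sin (x 2) := rfl
  have e3 : G3 (G2 (G1 x)) 3 = cos (x 2) * (x 3)⁻¹ := rfl
  have e4 : G2 (G1 x) 3 = cos (x 2) * (x 3)⁻¹ := rfl
  have e5 : G1 x 3 = cos (x 2) * (x 3)⁻¹ := rfl
  rw [Matrix.det_mul, Matrix.det_mul, Matrix.det_mul, b1, b2, b3, b4, e0, e1, e2, e3, e4, e5]
  generalize cos (x 2) * (x 3)⁻¹ = v at hv
  generalize G2 (G1 x) 0 = r at hr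
  have e6 : (r * sin (x 1) * v⁻¹ * sin (x 2) +
      (r * cos (x 1) - sin (x 2) * (r * sin (x 1) * v⁻¹))) ^ 2 +
      (r * sin (x 1) * v⁻¹) ^ 2 * v ^ 2 = r ^ 2 := by
    have := sin_sq_add_cos_sq (x 1)
    field_simp
    linear_combination (v ^ 2) * this
  rw [e6]
  have e7 : -(4 / 9 * v * r ^ 2) * (-(r * v⁻¹) * ((4 * r ^ 3 * v ^ 2)⁻¹ * -v ^ 2)) =
      -(1 / 9) := by
    field_simp
  rw [e7]
  norm_num

theorem vol_Bx : volume Bx = ENNReal.ofReal (9 * (π ^ 2 / 4)) := by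
  have hpi := pi_pos
  rw [Bx, volume_pi_pi, Fin.prod_univ_four]
  simp only [Matrix.cons_val_zero, Matrix.cons_val_one, Matrix.cons_val, Real.volume_Ioc,
    Real.volume_Icc]
  rw [← ENNReal.ofReal_mul (by norm_num), ← ENNReal.ofReal_mul (by positivity),
    ← ENNReal.ofReal_mul (mul_nonneg (by positivity) (by linarith))]
  congr 1
  ring

theorem meas_Bx : MeasurableSet Bx := by
  refine MeasurableSet.univ_pi fun i => ?_
  fin_cases i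
  · exact measurableSet_Ioc
  · exact measurableSet_Icc
  · exact measurableSet_Icc
  · exact measurableSet_Ioc

theorem vol_image : volume ((G4 ∘ G3 ∘ G2 ∘ G1) '' Bx) ≤ ENNReal.ofReal (π ^ 2 / 4) := by
  choose! M hM using dall
  refine (addHaar_image_le_lintegral_abs_det_fderiv volume meas_Bx
    (f' := fun x => LinearMap.toContinuousLinearMap (Matrix.toLin' (M x)))
    (fun x hx => (hM x hx).1.hasFDerivWithinAt)).trans ?_
  have e : ∀ x ∈ Bx, ENNReal.ofReal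
      |(LinearMap.toContinuousLinearMap (Matrix.toLin' (M x))).det| = ENNReal.ofReal (1 / 9) := by
    intro x hx
    rw [← (hM x hx).2, ← LinearMap.det_toLin' (M x)]
    rfl
  rw [setLIntegral_congr_fun meas_Bx e, setLIntegral_const, vol_Bx,
    ← ENNReal.ofReal_mul (by norm_num)]
  exact le_of_eq (by congr 1; ring)

theorem sub_image (T : ℝ) : KT T ⊆ {0} ∪ (G4 ∘ G3 ∘ G2 ∘ G1) '' Bx := by
  rintro f ⟨p, q, u, v, hp0, hu, huv, hv0, -, hN, rfl⟩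
  have hu1 := abs_le.1 hu
  have hv : 0 < v := by
    refine lt_of_le_of_ne hv0 fun h => ?_
    rw [← h] at huv
    nlinarith
  by_cases hz : (p * u + q) ^ 2 + p ^ 2 * v ^ 2 = 0
  · left
    have h1 : p ^ 2 * v ^ 2 = 0 := by nlinarith [sq_nonneg (p * u + q), sq_nonneg (p * v)]
    have h2 : p = 0 := by
      rcases mul_eq_zero.1 h1 with h | h
      · exact pow_eq_zero_iff two_ne_zero |>.1 h
      · exact absurd (pow_eq_zero_iff two_ne_zero |>.1 h) hv.ne'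
    subst h2
    have h3 : q = 0 := by
      have : q ^ 2 = 0 := by linarith
      exact pow_eq_zero_iff two_ne_zero |>.1 this
    subst h3
    funext i
    fin_cases i <;> simp [mkF]
  right
  obtain ⟨N, hNd⟩ : ∃ N, N = (p * u + q) ^ 2 + p ^ 2 * v ^ 2 := ⟨_, rfl⟩
  rw [← hNd] at hz hN
  have hN0 : 0 < N := lt_of_le_of_ne (by rw [hNd]; positivity) (Ne.symm hz)
  have hr : 0 < √N := sqrt_pos.2 hN0
  have hr2 : √N ^ 2 = N := sq_sqrt hN0.le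
  have hx : |p * u + q| ≤ √N := abs_le_sqrt (by rw [hNd]; nlinarith [sq_nonneg (p * v)])
  have hx1 := abs_le.1 hx
  have hc1 : -1 ≤ (p * u + q) / √N := by rw [le_div_iff₀ hr]; linarith [hx1.1]
  have hc2 : (p * u + q) / √N ≤ 1 := by rw [div_le_iff₀ hr]; linarith [hx1.2]
  have hcos : cos (arccos ((p * u + q) / √N)) = (p * u + q) / √N := cos_arccos hc1 hc2
  have hsin : sin (arccos ((p * u + q) / √N)) = p * v / √N := by
    have e : 1 - ((p * u + q) / √N) ^ 2 = (p * v / √N) ^ 2 := by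
      rw [div_pow, div_pow, hr2]
      field_simp
      linarith
    rw [sin_arccos, e, sqrt_sq (by positivity)]
  have hw : 0 < 1 - u ^ 2 := by nlinarith
  have hw1 : 0 < √(1 - u ^ 2) := sqrt_pos.2 hw
  have hs : sin (arcsin u) = u := sin_arcsin (by linarith [hu1.1]) (by linarith [hu1.2])
  have hcs : cos (arcsin u) = √(1 - u ^ 2) := cos_arcsin u
  have ha : arcsin (1 / 2) = π / 6 := by
    rw [← sin_pi_div_six]
    exact arcsin_sin (by linarith [pi_pos]) (by linarith [pi_pos])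
  refine ⟨![v ^ 2 * N ^ 2, arccos ((p * u + q) / √N), arcsin u, √(1 - u ^ 2) / v], ?_, ?_⟩
  · intro i _
    fin_cases i
    · exact ⟨by show 0 < v ^ 2 * N ^ 2; positivity, by show v ^ 2 * N ^ 2 ≤ 27 / 4; linarith⟩
    · exact ⟨arccos_nonneg _, arccos_le_pi _⟩
    · refine ⟨?_, ?_⟩
      · show -(π / 6) ≤ arcsin u
        rw [← ha, ← arcsin_neg]
        exact monotone_arcsin hu1.1
      · show arcsin u ≤ π / 6
        rw [← ha]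
        exact monotone_arcsin hu1.2
    · refine ⟨div_pos hw1 hv, ?_⟩
      show √(1 - u ^ 2) / v ≤ 1
      rw [div_le_one hv]
      exact sqrt_le_iff.2 ⟨hv0, by linarith⟩
  · have e1 : G1 ![v ^ 2 * N ^ 2, arccos ((p * u + q) / √N), arcsin u, √(1 - u ^ 2) / v] =
        ![v ^ 2 * N ^ 2, arccos ((p * u + q) / √N), u, v] := by
      have : cos (arcsin u) * (√(1 - u ^ 2) / v)⁻¹ = v := by
        rw [hcs]
        field_simp
      show ![v ^ 2 * N ^ 2, arccos ((p * u + q) / √N), sin (arcsin u),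
        cos (arcsin u) * (√(1 - u ^ 2) / v)⁻¹] = _
      rw [hs, this]
    have e2 : G2 ![v ^ 2 * N ^ 2, arccos ((p * u + q) / √N), u, v] =
        ![√N, arccos ((p * u + q) / √N), u, v] := by
      have : √(v ^ 2 * N ^ 2) * v⁻¹ = N := by
        rw [← mul_pow, sqrt_sq (by positivity)]
        field_simp
      show ![√(√(v ^ 2 * N ^ 2) * v⁻¹), arccos ((p * u + q) / √N), u, v] = _
      rw [this]
    have e3 : G3 ![√N, arccos ((p * u + q) / √N), u, v] = ![p, q, u, v] := by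
      have a1 : √N * sin (arccos ((p * u + q) / √N)) * v⁻¹ = p := by
        rw [hsin]
        field_simp
      have a2 : √N * cos (arccos ((p * u + q) / √N)) - u * p = q := by
        rw [hcos]
        field_simp
        ring
      show ![√N * sin (arccos ((p * u + q) / √N)) * v⁻¹, √N * cos (arccos ((p * u + q) / √N)) -
        u * (√N * sin (arccos ((p * u + q) / √N)) * v⁻¹), u, v] = _
      rw [a1, a2]
    simp only [Function.comp_apply]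
    rw [e1, e2, e3]
    rfl

theorem compact_KT (T : ℝ) : IsCompact (KT T) := by
  have e : KT T = G4 '' {z : Fm ℝ | 0 ≤ z 0 ∧ |z 2| ≤ 1 / 2 ∧ 1 ≤ z 2 ^ 2 + z 3 ^ 2 ∧ 0 ≤ z 3 ∧
      z 3 ≤ T ∧ 4 * z 3 ^ 2 * ((z 0 * z 2 + z 1) ^ 2 + z 0 ^ 2 * z 3 ^ 2) ^ 2 ≤ 27} := by
    ext f
    constructor
    · rintro ⟨p, q, u, v, h1, h2, h3, h4, h5, h6, rfl⟩
      exact ⟨![p, q, u, v], ⟨h1, h2, h3, h4, h5, h6⟩, rfl⟩
    · rintro ⟨z, ⟨h1, h2, h3, h4, h5, h6⟩, rfl⟩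
      exact ⟨z 0, z 1, z 2, z 3, h1, h2, h3, h4, h5, h6, rfl⟩
  have hc : Continuous G4 := continuous_iff_continuousAt.2 fun x => by
    obtain ⟨M, h, -⟩ := d4 x
    exact HasFDerivAt.continuousAt h
  rw [e]
  refine IsCompact.image ?_ hc
  refine (isCompact_Icc (a := fun _ => -(|T| + 3)) (b := fun _ => |T| + 3)).of_isClosed_subset
    ?_ ?_
  · refine IsClosed.and ?_ (IsClosed.and ?_ (IsClosed.and ?_ (IsClosed.and ?_
      (IsClosed.and ?_ ?_)))) <;> exact isClosed_le (by fun_prop) (by fun_prop)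
  · rintro z ⟨h1, h2, h3, h4, h5, h6⟩
    have hT := abs_nonneg T
    have hT1 := le_abs_self T
    have hu := abs_le.1 h2
    have hv : 3 / 4 ≤ z 3 ^ 2 := by nlinarith
    obtain ⟨N, hNd⟩ : ∃ N, N = (z 0 * z 2 + z 1) ^ 2 + z 0 ^ 2 * z 3 ^ 2 := ⟨_, rfl⟩
    rw [← hNd] at h6
    have hN2 : N ^ 2 ≤ 3 ^ 2 := by nlinarith [sq_nonneg N]
    have hN : N ≤ 3 := (abs_le_of_sq_le_sq' hN2 (by norm_num)).2
    have hp2 : z 0 ^ 2 ≤ 2 ^ 2 := by nlinarith [sq_nonneg (z 0 * z 2 + z 1), sq_nonneg (z 0)]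
    have hp : z 0 ≤ 2 := (abs_le_of_sq_le_sq' hp2 (by norm_num)).2
    have hx2 : (z 0 * z 2 + z 1) ^ 2 ≤ 2 ^ 2 := by nlinarith [sq_nonneg (z 0 * z 3)]
    have hx := abs_le_of_sq_le_sq' hx2 (by norm_num)
    have hq1 : z 0 * z 2 ≤ 1 := by nlinarith
    have hq2 : -1 ≤ z 0 * z 2 := by nlinarith
    refine ⟨fun i => ?_, fun i => ?_⟩
    · fin_cases i
      · show -(|T| + 3) ≤ z 0
        linarith
      · show -(|T| + 3) ≤ z 1
        linarith [hx.1]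
      · show -(|T| + 3) ≤ z 2
        linarith [hu.1]
      · show -(|T| + 3) ≤ z 3
        linarith
    · fin_cases i
      · show z 0 ≤ |T| + 3
        linarith
      · show z 1 ≤ |T| + 3
        linarith [hx.2]
      · show z 2 ≤ |T| + 3
        linarith [hu.2]
      · show z 3 ≤ |T| + 3
        linarith

theorem rowVOL : RowVOL := fun T =>
  ⟨compact_KT T, (measure_mono (sub_image T)).trans ((measure_union_le _ _).trans (by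
    rw [measure_singleton, zero_add]
    exact vol_image))⟩

end Pool.Agent.MP_1246c0_nt.H15
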