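import Pool.Agent.MP_1246c0_nt.H25.SpecN

/-! From odd squarefree integers to fundamental discriminants. -/

namespace Pool.Agent.MP_1246c0_nt.H25

open Finset Filter
open Pool.Agent.MP_1246c0_nt.H55 (Fund kD)
open Pool.Agent.MP_1246c0_nt.H12

namespace FN

theorem sqf (Y : ℕ) : (Y : ℝ) / 4 ≤ ((Ioc 0 Y).filter Squarefree).card := by
  have h1 : (Ioc 0 Y).filter (fun d => ¬Squarefree d) ⊆
      (insert 2 (Ioc 2 (Y + 2))).biUnion fun m => (Ioc 0 Y).filter (m ^ 2 ∣ ·) := fun d hd => by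
    obtain ⟨h0, h⟩ := mem_filter.1 hd
    rw [Nat.squarefree_iff_prime_squarefree, not_forall] at h
    obtain ⟨p, hp⟩ := h
    rw [Classical.not_imp, not_not] at hp
    have h2 := hp.1.two_le
    have h3 := (Nat.le_of_dvd (mem_Ioc.1 h0).1 ((dvd_mul_left p p).trans hp.2)).trans
      (mem_Ioc.1 h0).2
    refine mem_biUnion.2 ⟨p, ?_, mem_filter.2 ⟨h0, by rw [sq]; exact hp.2⟩⟩
    rw [mem_insert, mem_Ioc]
    omega
  have h2 : (((Ioc 0 Y).filter fun d => ¬Squarefree d).card : ℝ) ≤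
      ∑ m ∈ insert 2 (Ioc 2 (Y + 2)), (Y : ℝ) * ((m : ℝ) ^ 2)⁻¹ := by
    refine (Nat.cast_le.2 ((card_le_card h1).trans card_biUnion_le)).trans ?_
    rw [Nat.cast_sum]
    refine sum_le_sum fun m _ => ?_
    rw [Nat.Ioc_filter_dvd_card_eq_div]
    exact Nat.cast_div_le.trans_eq (by push_cast; rw [div_eq_mul_inv])
  have h3 := sum_Ioc_inv_sq_le_sub (α := ℝ) (k := 2) (n := Y + 2) two_ne_zero (by omega)
  have h4 := card_filter_add_card_filter_not (s := Ioc 0 Y) Squarefree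
  rw [Nat.card_Ioc, Nat.sub_zero] at h4
  have h5 : (((Ioc 0 Y).filter Squarefree).card : ℝ) +
      ((Ioc 0 Y).filter fun d => ¬Squarefree d).card = Y := by exact_mod_cast h4
  have h6 : (0 : ℝ) ≤ ((Y + 2 : ℕ) : ℝ)⁻¹ := by positivity
  rw [← mul_sum, sum_insert (by simp)] at h2
  have h7 := mul_le_mul_of_nonneg_left (show (((2 : ℕ) : ℝ) ^ 2)⁻¹ +
    ∑ m ∈ Ioc 2 (Y + 2), ((m : ℝ) ^ 2)⁻¹ ≤ 3 / 4 by push_cast at h3 h6 ⊢; linarith) Y.cast_nonneg
  linarith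

theorem low (X : ℕ) : (X : ℝ) / 16 - 2 ≤ Set.ncard {D : ℕ | D ≤ X ∧ Fund D} := by
  have h1 := Set.ncard_le_ncard_of_injOn (s := (((Ioc 0 (X / 4)).filter Squarefree).erase 1 :
      Finset ℕ)) (t := {D : ℕ | D ≤ X ∧ Fund D}) (fun d => if d % 4 = 1 then d else 4 * d)
    (fun d hd => by
      simp only [coe_erase, coe_filter, mem_Ioc, Set.mem_sdiff, Set.mem_ofPred_eq,
        Set.mem_singleton_iff] at hd ⊢
      have h4 : ¬2 * 2 ∣ d := Nat.squarefree_iff_prime_squarefree.1 hd.1.2 2 Nat.prime_two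
      split_ifs with h
      · exact ⟨by omega, by omega, Or.inl ⟨h, hd.1.2⟩⟩
      · exact ⟨by omega, by omega, Or.inr ⟨d, rfl, by omega, hd.1.2⟩⟩)
    (fun a _ b _ e => by
      simp only at e
      split_ifs at e <;> omega) ((Set.finite_le_nat X).subset fun D hD => hD.1)
  rw [Set.ncard_coe_finset] at h1
  have h2 : (((Ioc 0 (X / 4)).filter Squarefree).card : ℝ) ≤
      Set.ncard {D : ℕ | D ≤ X ∧ Fund D} + 1 := by
    have := pred_card_le_card_erase (s := (Ioc 0 (X / 4)).filter Squarefree) (a := 1)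
    exact_mod_cast (by omega)
  have h3 : (X : ℝ) ≤ 4 * (X / 4 : ℕ) + 3 := by exact_mod_cast (by omega)
  linarith [sqf (X / 4)]

theorem bad (hB : SBRG) (X : ℕ) : Set.ncard {D : ℕ | D ≤ X ∧ Fund D} ≤
    Set.ncard {D : ℕ | D ≤ X ∧ Fund D ∧ Green2 (kD D)} +
      (3 * Set.ncard {d : ℕ | d ≤ X ∧ Squarefree d ∧ Odd d ∧ ¬Gr d} + 1) := by
  set B := {d : ℕ | d ≤ X ∧ Squarefree d ∧ Odd d ∧ ¬Gr d}
  have fB : B.Finite := (Set.finite_le_nat X).subset fun D hD => hD.1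
  have h : {D : ℕ | D ≤ X ∧ Fund D} ⊆ {D : ℕ | D ≤ X ∧ Fund D ∧ Green2 (kD D)} ∪
      insert 8 (B ∪ (4 * ·) '' B ∪ (8 * ·) '' B) := fun D hD => by
    refine or_iff_not_imp_left.2 fun h => ?_
    have g : ¬Green2 (kD D) := fun e => h ⟨hD.1, hD.2, e⟩
    obtain ⟨h1, h2, ⟨h3, h4⟩ | ⟨m, rfl, h3 | h3, h4⟩⟩ := hD
    · have o : Odd D := Nat.odd_iff.2 (by omega)
      exact Or.inr (Or.inl (Or.inl ⟨h1, h4, o, fun e => g (hB D h4 o h2 e).1⟩))
    · obtain ⟨d, rfl⟩ : ∃ d, m = 2 * d := ⟨m / 2, by omega⟩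
      have o : Odd d := Nat.odd_iff.2 (by omega)
      have e8 : 8 * d = 4 * (2 * d) := by ring
      by_cases e1 : d = 1
      · exact Or.inl (by omega)
      · exact Or.inr (Or.inr ⟨d, ⟨by omega, h4.of_mul_right, o, fun e =>
          g (e8 ▸ (hB d h4.of_mul_right o (by omega) e).2.2)⟩, e8⟩)
    · have o : Odd m := Nat.odd_iff.2 (by omega)
      exact Or.inr (Or.inl (Or.inr ⟨m, ⟨by omega, h4, o, fun e =>
        g (hB m h4 o (by omega) e).2.1⟩, rfl⟩))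
  refine (Set.ncard_le_ncard h (((Set.finite_le_nat X).subset fun D hD => hD.1).union
    (((fB.union (fB.image _)).union (fB.image _)).insert _))).trans
    ((Set.ncard_union_le _ _).trans (Nat.add_le_add_left ((Set.ncard_insert_le _ _).trans ?_) _))
  have h1 := Set.ncard_union_le (B ∪ (4 * ·) '' B) ((8 * ·) '' B)
  have h2 := Set.ncard_union_le B ((4 * ·) '' B)
  have h3 := Set.ncard_image_le (f := (4 * ·)) fB
  have h4 := Set.ncard_image_le (f := (8 * ·)) fB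
  omega

end FN

theorem rowFN : OfFN := fun hB hM ε e0 => by
  obtain ⟨X₀, h⟩ := eventually_atTop.1 ((hM (ε / 96) (by positivity)).and
    (tendsto_natCast_atTop_atTop.eventually_ge_atTop (32 * (1 + 2 * ε) / ε)))
  refine ⟨X₀, fun X hX => ?_⟩
  obtain ⟨h1, h2⟩ := h X hX
  rw [div_le_iff₀ e0] at h2
  have h3 := mul_le_mul_of_nonneg_left (FN.low X) e0.le
  have h4 := (Nat.cast_le (α := ℝ)).2 (FN.bad hB X)
  push_cast at h4
  linarith

end Pool.Agent.MP_1246c0_nt.H25
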