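import Pool.Agent.MP_1246c0_nt.H25.SpecU

/-! Integers with few or many prime factors in a set. -/

namespace Pool.Agent.MP_1246c0_nt.H25

open Finset Pool.Agent.MP_1246c0_nt.H12

namespace HT

variable {g : ℕ → ℝ}

theorem euler (g0 : ∀ p, 0 ≤ g p) (x : ℕ) :
    ∑ m ∈ (Ioc 0 x).filter Squarefree, (∏ p ∈ m.primeFactors, g p) / m ≤
      Real.exp (∑ p ∈ (Ioc 0 x).filter Nat.Prime, g p / p) := by
  refine le_trans ?_ (Real.prod_one_add_le_exp_sum _ fun p => div_nonneg (g0 p) p.cast_nonneg)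
  rw [prod_one_add]
  refine le_trans (le_of_eq ?_) (sum_le_sum_of_subset_of_nonneg
    (s := ((Ioc 0 x).filter Squarefree).image Nat.primeFactors) (fun t ht => ?_)
    fun t _ _ => prod_nonneg fun p _ => div_nonneg (g0 p) p.cast_nonneg)
  · rw [sum_image fun a ha b hb e => by
      rw [← Nat.prod_primeFactors_of_squarefree (mem_filter.1 ha).2, e,
        Nat.prod_primeFactors_of_squarefree (mem_filter.1 hb).2]]
    refine sum_congr rfl fun m hm => ?_
    rw [prod_div_distrib, ← Nat.cast_prod, Nat.prod_primeFactors_of_squarefree (mem_filter.1 hm).2]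
  · obtain ⟨m, hm, rfl⟩ := mem_image.1 ht
    refine mem_powerset.2 fun p hp => ?_
    have h := Nat.prime_of_mem_primeFactors hp
    exact mem_filter.2 ⟨mem_Ioc.2 ⟨h.pos, (Nat.le_of_mem_primeFactors hp).trans
      (mem_Ioc.1 (mem_filter.1 hm).1).2⟩, h⟩

theorem logs (g0 : ∀ p, 0 ≤ g p) (g1 : ∀ p, g p ≤ 1) (x : ℕ) :
    ∑ d ∈ (Ioc 0 x).filter Squarefree, (∏ p ∈ d.primeFactors, g p) * Real.log d ≤
      2 * x * ∑ m ∈ (Ioc 0 x).filter Squarefree, (∏ p ∈ m.primeFactors, g p) / m := by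
  have w0 : ∀ d : ℕ, 0 ≤ ∏ p ∈ d.primeFactors, g p := fun d => prod_nonneg fun p _ => g0 p
  calc _ = ∑ d ∈ (Ioc 0 x).filter Squarefree, ∑ q ∈ (Ioc 0 x).filter Nat.Prime,
        if q ∣ d then (∏ p ∈ d.primeFactors, g p) * Real.log q else 0 := by
        refine sum_congr rfl fun d hd => ?_
        obtain ⟨h1, h2⟩ := mem_filter.1 hd
        rw [mem_Ioc] at h1
        have e : ((Ioc 0 x).filter Nat.Prime).filter (· ∣ d) = d.primeFactors := by
          ext q
          simp only [mem_filter, mem_Ioc, Nat.mem_primeFactors]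
          exact ⟨fun h => ⟨h.1.2, h.2, h1.1.ne'⟩, fun h =>
            ⟨⟨⟨h.1.pos, (Nat.le_of_dvd h1.1 h.2.1).trans h1.2⟩, h.1⟩, h.2.1⟩⟩
        rw [← sum_filter, e, ← mul_sum, ← Real.log_prod fun q hq =>
          Nat.cast_ne_zero.2 (Nat.prime_of_mem_primeFactors hq).ne_zero, ← Nat.cast_prod,
          Nat.prod_primeFactors_of_squarefree h2]
    _ ≤ ∑ m ∈ (Ioc 0 x).filter Squarefree, ∑ q ∈ (Ioc 0 x).filter Nat.Prime,
        if q * m ≤ x then (∏ p ∈ m.primeFactors, g p) * Real.log q else 0 := by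
        rw [sum_comm, sum_comm (s := (Ioc 0 x).filter Squarefree)]
        refine sum_le_sum fun q hq => ?_
        have hp := (mem_filter.1 hq).2
        rw [← sum_filter, ← sum_filter, ← sum_mul, ← sum_mul]
        refine mul_le_mul_of_nonneg_right ?_ (Real.log_natCast_nonneg q)
        refine (sum_le_sum_of_subset_of_nonneg (t := (((Ioc 0 x).filter Squarefree).filter
          fun m => q * m ≤ x).image (q * ·)) (fun d hd => ?_) fun d _ _ => w0 d).trans ?_
        · simp only [mem_filter, mem_Ioc, mem_image] at hd ⊢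
          obtain ⟨⟨⟨h1, h2⟩, h3⟩, m, rfl⟩ := hd
          exact ⟨m, ⟨⟨⟨Nat.pos_of_mul_pos_left h1, (Nat.le_mul_of_pos_left m hp.pos).trans h2⟩,
            h3.of_mul_right⟩, h2⟩, rfl⟩
        · rw [sum_image fun a _ b _ e => Nat.eq_of_mul_eq_mul_left hp.pos e]
          refine sum_le_sum fun m hm => prod_le_prod_of_subset_of_le_one
            (Nat.primeFactors_mono (Dvd.intro_left q rfl) (mul_ne_zero hp.ne_zero ?_))
            (fun p _ => g0 p) fun p _ _ => g1 p
          exact (mem_Ioc.1 (mem_filter.1 (mem_filter.1 hm).1).1).1.ne'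
    _ ≤ _ := by
        rw [mul_sum]
        refine sum_le_sum fun m hm => ?_
        have m0 := (mem_Ioc.1 (mem_filter.1 hm).1).1
        have h := Chebyshev.theta_le_log4_mul_x (x := (x : ℝ) / m) (by positivity)
        rw [Chebyshev.theta, Nat.floor_div_eq_div] at h
        have h4 : Real.log 4 ≤ 2 := by
          rw [show (4 : ℝ) = 2 ^ 2 by norm_num, Real.log_pow]
          push_cast
          linarith [Real.log_two_lt_d9]
        rw [← sum_filter, ← mul_sum, show 2 * (x : ℝ) * ((∏ p ∈ m.primeFactors, g p) / m) =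
          (∏ p ∈ m.primeFactors, g p) * (2 * (x / m)) by ring]
        refine mul_le_mul_of_nonneg_left (le_trans (sum_le_sum_of_subset_of_nonneg
          (fun q hq => ?_) fun q _ _ => Real.log_natCast_nonneg q)
          (h.trans (mul_le_mul_of_nonneg_right h4 (by positivity)))) (w0 m)
        simp only [mem_filter, mem_Ioc] at hq ⊢
        exact ⟨⟨hq.1.1.1, (Nat.le_div_iff_mul_le m0).2 hq.2⟩, hq.1.2⟩

theorem main (g0 : ∀ p, 0 ≤ g p) (g1 : ∀ p, g p ≤ 1) (x : ℕ) :
    (∑ d ∈ (Ioc 0 x).filter Squarefree, ∏ p ∈ d.primeFactors, g p) * Real.log x ≤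
      3 * x * Real.exp (∑ p ∈ (Ioc 0 x).filter Nat.Prime, g p / p) := by
  refine le_trans ?_ (mul_le_mul_of_nonneg_left (euler g0 x) (by positivity))
  have h : ∑ d ∈ (Ioc 0 x).filter Squarefree, (∏ p ∈ d.primeFactors, g p) * Real.log x ≤
      ∑ d ∈ (Ioc 0 x).filter Squarefree, ((∏ p ∈ d.primeFactors, g p) * Real.log d +
        x * ((∏ p ∈ d.primeFactors, g p) / d)) := sum_le_sum fun d hd => by
    obtain ⟨h1, h2⟩ := mem_Ioc.1 (mem_filter.1 hd).1
    have d0 : (0 : ℝ) < d := Nat.cast_pos.2 h1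
    have x0 : (0 : ℝ) < x := Nat.cast_pos.2 (h1.trans_le h2)
    have h3 := Real.log_le_sub_one_of_pos (div_pos x0 d0)
    rw [Real.log_div x0.ne' d0.ne'] at h3
    rw [mul_div_left_comm, ← mul_add]
    exact mul_le_mul_of_nonneg_left (by linarith) (prod_nonneg fun p _ => g0 p)
  rw [sum_add_distrib, ← mul_sum, ← sum_mul] at h
  linarith [logs g0 g1 x]

end HT

open HT in
theorem rowHT : OfHT := fun hW => by
  obtain ⟨C, C0, hC⟩ := hW.tot
  refine ⟨⟨3 * Real.exp C, by positivity, fun x t R hR => ?_⟩, fun x t R => ?_⟩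
  · have e : {d : ℕ | d ≤ x ∧ Squarefree d ∧ (R.filter (· ∣ d)).card ≤ t} =
        (((Ioc 0 x).filter Squarefree).filter fun d => (R.filter (· ∣ d)).card ≤ t : Finset ℕ) := by
      ext d
      simp only [Set.mem_ofPred_eq, coe_filter, mem_filter, mem_Ioc]
      exact ⟨fun h => ⟨⟨⟨h.2.1.ne_zero.bot_lt, h.1⟩, h.2.1⟩, h.2.2⟩,
        fun h => ⟨h.1.1.2, h.1.2, h.2⟩⟩
    rw [e, Set.ncard_coe_finset]
    have t1 : (1 : ℝ) ≤ 2 ^ t := one_le_pow₀ one_le_two
    rcases lt_or_ge x 3 with hx | hx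
    · have h1 : ∑ p ∈ R, 1 / (p : ℝ) ≤ ∑ p ∈ {2}, 1 / ((p : ℕ) : ℝ) :=
        sum_le_sum_of_subset_of_nonneg (fun p hp => by
          have := (hR p hp).1.two_le
          have := (hR p hp).2
          rw [mem_singleton]
          omega) fun _ _ _ => by positivity
      rw [sum_singleton] at h1
      push_cast at h1
      have h2 := Real.add_one_le_exp (-(∑ p ∈ R, 1 / (p : ℝ)) / 2)
      have h3 := Real.add_one_le_exp C
      refine (Nat.cast_le.2 ((card_filter_le _ _).trans (card_filter_le _ _))).trans ?_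
      rw [Nat.card_Ioc, Nat.sub_zero]
      calc (x : ℝ) = 3 * 1 * x * 1 * (1 / 3) := by ring
        _ ≤ _ := by gcongr <;> linarith
    have l0 : 0 < Real.log x := Real.log_pos (by exact_mod_cast (by omega : 1 < x))
    have k := main (g := fun p => if p ∈ R then 1 / 2 else 1)
      (fun p => by split_ifs <;> norm_num) (fun p => by split_ifs <;> norm_num) x
    have k1 : ∑ p ∈ (Ioc 0 x).filter Nat.Prime, (if p ∈ R then 1 / 2 else 1 : ℝ) / p ≤
        ll x + C + -(∑ p ∈ R, 1 / (p : ℝ)) / 2 := by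
      have h1 := hC x hx
      have h2 : ((Ioc 0 x).filter Nat.Prime).filter (· ∈ R) = R := by
        ext p
        simp only [mem_filter, mem_Ioc]
        exact ⟨fun h => h.2, fun h => ⟨⟨⟨(hR p h).1.pos, (hR p h).2⟩, (hR p h).1⟩, h⟩⟩
      have h3 : ∑ p ∈ (Ioc 0 x).filter Nat.Prime, (if p ∈ R then 1 / 2 else 1 : ℝ) / p =
          ∑ p ∈ (Ioc 0 x).filter Nat.Prime, (1 / (p : ℝ) - (if p ∈ R then 1 / (p : ℝ) else 0) / 2) :=
        sum_congr rfl fun p _ => by split_ifs <;> ring
      rw [h3, sum_sub_distrib, ← sum_div, ← sum_filter, h2]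
      simp only [RS, and_true] at h1
      linarith
    have k2 := k.trans (mul_le_mul_of_nonneg_left (Real.exp_le_exp.2 k1) (by positivity))
    rw [Real.exp_add, Real.exp_add, ll, Real.exp_log l0] at k2
    have k3 : (∑ d ∈ (Ioc 0 x).filter Squarefree,
        ∏ p ∈ d.primeFactors, (if p ∈ R then 1 / 2 else 1 : ℝ)) ≤
        3 * Real.exp C * x * Real.exp (-(∑ p ∈ R, 1 / (p : ℝ)) / 2) :=
      le_of_mul_le_mul_right (k2.trans_eq (by ring)) l0
    rw [mul_right_comm _ (2 ^ t : ℝ)]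
    refine le_trans ?_ (mul_le_mul_of_nonneg_right k3 (by positivity))
    rw [card_filter, sum_mul]
    push_cast
    refine sum_le_sum fun d _ => ?_
    rw [prod_ite, prod_const_one, mul_one, prod_const]
    split_ifs with h
    · rw [one_div, inv_pow, inv_mul_eq_div, le_div_iff₀ (by positivity), one_mul]
      refine pow_le_pow_right₀ one_le_two ((card_le_card fun p hp => ?_).trans h)
      rw [mem_filter] at hp ⊢
      exact ⟨hp.2, Nat.dvd_of_mem_primeFactors hp.1⟩
    · positivity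
  · have e : {d : ℕ | 1 ≤ d ∧ d ≤ x ∧ t ≤ (R.filter (· ∣ d)).card} =
        ((Ioc 0 x).filter fun d => t ≤ (R.filter (· ∣ d)).card : Finset ℕ) := by
      ext d
      simp only [Set.mem_ofPred_eq, coe_filter, mem_Ioc, and_assoc]
      rfl
    have h : t * ((Ioc 0 x).filter fun d => t ≤ (R.filter (· ∣ d)).card).card ≤
        ∑ p ∈ R, x / p := by
      simp only [← Nat.Ioc_filter_dvd_card_eq_div, card_filter (fun d => _ ∣ d)]
      rw [sum_comm, card_filter, mul_sum]
      refine sum_le_sum fun d _ => ?_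
      rw [← card_filter]
      split_ifs with h
      · rwa [mul_one]
      · exact Nat.zero_le _
    rw [e, Set.ncard_coe_finset, mul_sum, ← Nat.cast_mul]
    refine (Nat.cast_le.2 h).trans ?_
    rw [Nat.cast_sum]
    exact sum_le_sum fun p _ => Nat.cast_div_le.trans_eq (mul_one_div _ _).symm

end Pool.Agent.MP_1246c0_nt.H25
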